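import Pool.Agent.TH292.PH.Main

/-!
# A dissipative diffeomorphism with a two-dimensional center-unstable bundle without dominated
# subsplitting and a non-uniformly hyperbolic SRB measure

The diffeomorphism of the three-torus is the skew product
`f (x₁, x₂, y) = (x₁ + x₂, x₁, y + (c x₁ - 1) s y - (3/40) k y)` with
`c x = exp ((2/5) (cos 2πx + (1/2) cos 4πx) - 1/10)`,
`s y = (9 sin 2πy + 3 sin 4πy + sin 6πy) / (36 π)`, `k y = (2 sin 2πy - sin 4πy) / (2 π)`, and `μ` is
Lebesgue measure on the invariant two-torus `y = 0`.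
-/

set_option autoImplicit false

open Set MeasureTheory

namespace Pool.Agent.Results.MP_40f8bf_an.DissipativeSRB

open Pool.Agent.TH292.PH

/-- There are a dissipative `C^∞` diffeomorphism `f` of the three-torus and a (proper) compact
invariant attracting set `Λ` over which `f` has a stable bundle `Es` and a center-unstable bundle `Ecu` of
dimension two without dominated subsplitting (neither over `Λ` nor over the support of `μ`), and an
SRB measure `μ` supported on `Λ` whose two Lyapunov exponents along `Ecu` are `χp > 0` and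
`χm < 0`. -/
theorem result : ∃ (f : Torus3 ≃ₜ Torus3) (F G : Space → Space) (Λ : Set Torus3)
    (Es Ecu : Torus3 → Submodule ℝ Space) (μ : Measure Torus3) (χp χm : ℝ),
    IsSmoothDiffeo f F G ∧ IsDissipative f ∧ IsAttractingSet f Λ ∧ Λ ≠ univ ∧
    HasStableAndCenterUnstable f F Λ Es Ecu ∧ (∀ x ∈ Λ, Module.finrank ℝ (Ecu x) = 2) ∧
    ¬ HasDominatedSubsplitting f F Λ Ecu ∧ ¬ HasDominatedSubsplitting f F μ.support Ecu ∧
    IsSRB f μ ∧ μ Λᶜ = 0 ∧ χm < 0 ∧ 0 < χp ∧ HasExponentsAlong F μ Ecu χp χm :=
  main

end Pool.Agent.Results.MP_40f8bf_an.DissipativeSRB
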